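import Pool.Agent.H636R2.SM.ALLH
import Pool.Agent.H636R2.SM.WLARGE

set_option autoImplicit false

namespace Pool.Agent.Results.MP_7fc85e_an.FullOrder

open MeasureTheory
open scoped ENNReal BigOperators

/-- Normalised Lebesgue measure on the torus `[0,2π)^d`. -/
noncomputable def TP (d : ℕ) : Measure (Fin d → ℝ) :=
  Measure.pi (fun _ : Fin d => ENNReal.ofReal (2 * Real.pi)⁻¹ •
    volume.restrict (Set.Ico 0 (2 * Real.pi)))

/-- The kernel `1 + 2 ∑_{k ≥ 1} k^(-r) cos(k x - r π/2)` in one variable; the sum of the series is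
the limit of its partial sums. -/
noncomputable def F1 (r x : ℝ) : ℝ :=
  Filter.limUnder Filter.atTop (fun N : ℕ =>
    1 + 2 * ∑ k ∈ Finset.range N, ((k:ℝ)+1)^(-r) * Real.cos (((k:ℝ)+1) * x - r * Real.pi / 2))

/-- The kernel in `d` variables. -/
noncomputable def Fr {d : ℕ} (r : ℝ) (x : Fin d → ℝ) : ℝ := ∏ j, F1 r (x j)

/-- The class `W^r_p` of the functions `F_r * φ`, `‖φ‖_p ≤ 1`, with values in `𝕜` (the real or the
complex numbers). -/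
def W (𝕜 : Type) [RCLike 𝕜] (d : ℕ) (r : ℝ) (p : ℝ≥0∞) : Set ((Fin d → ℝ) → 𝕜) :=
  {f | ∃ φ : (Fin d → ℝ) → 𝕜, MemLp φ p (TP d) ∧ eLpNorm φ p (TP d) ≤ 1 ∧
    f = fun x => ∫ y, Fr r (x - y) • φ y ∂(TP d)}

/-- The mixed difference `∏_{j ∈ e} Δ^l_{t_j,j} f`, written out: the sum over `ν ∈ {0,…,l}^e` of
`∏_{j ∈ e} (-1)^(l-ν_j) (l choose ν_j)` times `f(x + ∑_{j ∈ e} ν_j t_j e_j)`. -/
noncomputable def mdiff {𝕜 : Type} [RCLike 𝕜] {d : ℕ} (l : ℕ) (e : Finset (Fin d)) (t : Fin d → ℝ)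
    (f : (Fin d → ℝ) → 𝕜) : (Fin d → ℝ) → 𝕜 := fun x =>
  ∑ ν ∈ Fintype.piFinset (fun j : Fin d => if j ∈ e then Finset.range (l + 1) else {0}),
    (∏ j ∈ e, ((-1 : 𝕜)^(l - ν j) * ((l.choose (ν j) : ℕ) : 𝕜))) * f (fun j => x j + (ν j : ℝ) * t j)

/-- The class `H^r_p` (functions on `ℝ^d` that are `2π`-periodic in each variable), `l = ⌊r⌋ + 1`. -/
def H (𝕜 : Type) [RCLike 𝕜] (d : ℕ) (r : ℝ) (p : ℝ≥0∞) : Set ((Fin d → ℝ) → 𝕜) :=
  {f | (∀ (x : Fin d → ℝ) (j : Fin d), f (Function.update x j (x j + 2 * Real.pi)) = f x) ∧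
    AEStronglyMeasurable f volume ∧ eLpNorm f p (TP d) ≤ 1 ∧
    ∀ e : Finset (Fin d), e.Nonempty → ∀ t : Fin d → ℝ,
      eLpNorm (mdiff (⌊r⌋₊ + 1) e t f) p (TP d) ≤ ENNReal.ofReal (∏ j ∈ e, |t j|^r)}

/-- The entropy number `ε_n(F, L_∞)`: infimum of the `ε > 0` such that `F` is covered by `2^n` balls
of radius `ε` of `L_∞`. -/
noncomputable def ent {𝕜 : Type} [RCLike 𝕜] {d : ℕ} (n : ℕ) (F : Set ((Fin d → ℝ) → 𝕜)) : ℝ≥0∞ :=
  sInf {ε | 0 < ε ∧ ∃ y : Fin (2^n) → ((Fin d → ℝ) → 𝕜), (∀ j, MemLp (y j) ⊤ (TP d)) ∧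
    ∀ f ∈ F, ∃ j, eLpNorm (fun x => f x - y j x) ⊤ (TP d) ≤ ε}

/-- The order for the classes `W^r_p`. -/
noncomputable def ordW (d : ℕ) (r : ℝ) (p : ℝ≥0∞) (n : ℕ) : ℝ :=
  if r < 1/2 then (n:ℝ)^(-r) * (Real.log n)^(((d:ℝ)-1) * (1 - r) + r)
  else if r = 1/2 then
    (n:ℝ)^(-(1/2:ℝ)) * (Real.log n)^((d:ℝ)/2) * (Real.log (Real.log n + 3))^(1/2:ℝ)
  else if p = 1 then (n:ℝ)^(-r) * (Real.log n)^(((d:ℝ)-1) * r + 1)
  else (n:ℝ)^(-r) * (Real.log n)^(((d:ℝ)-1) * r + 1/2)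

/-- The order for the classes `H^r_p`. -/
noncomputable def ordH (d : ℕ) (r : ℝ) (n : ℕ) : ℝ :=
  if r < 1/2 then (n:ℝ)^(-r) * (Real.log n)^(((d:ℝ)-1) + r)
  else if r = 1/2 then
    (n:ℝ)^(-(1/2:ℝ)) * (Real.log n)^((d:ℝ) - 1/2) * Real.log (Real.log n + 3)
  else (n:ℝ)^(-r) * (Real.log n)^(((d:ℝ)-1) * r + (d:ℝ)/2)

theorem ent_eq {𝕜 : Type} [RCLike 𝕜] {d : ℕ} (n : ℕ) (F : Set ((Fin d → ℝ) → 𝕜)) :
    ent n F = HypVol.entNum ⊤ n F := by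
  unfold ent HypVol.entNum
  rw [sInf_eq_iInf]
  rfl

theorem psiP_dbl (d : ℕ) (hd : 3 ≤ d) (r : ℝ) (hr : 0 < r) :
    ∃ c : ℝ, 0 < c ∧ ∀ k : ℕ, 2 ≤ k → 0 < SmSm.psiP d r k ∧ c * SmSm.psiP d r k ≤ SmSm.psiP d r (2 * k) := by
  have hd3 : (3:ℝ) ≤ d := by exact_mod_cast hd
  refine ⟨(2:ℝ)^(-r), by positivity, fun k hk => ?_⟩
  have hk1 : (1:ℝ) < k := by exact_mod_cast (by omega : 1 < k)
  have hk0 : (0:ℝ) < k := by linarith
  have hlog : 0 < Real.log k := Real.log_pos hk1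
  have hlog2 : Real.log k ≤ Real.log ((2 * k : ℕ) : ℝ) := by
    apply Real.log_le_log hk0
    push_cast
    linarith
  have he : 0 ≤ ((d:ℝ)-1) * r + (d:ℝ)/2 := by
    have : 0 ≤ ((d:ℝ)-1) * r := mul_nonneg (by linarith) hr.le
    linarith
  constructor
  · unfold SmSm.psiP
    positivity
  · unfold SmSm.psiP
    rw [← mul_assoc]
    have e1 : (2:ℝ)^(-r) * (k:ℝ)^(-r) = (((2 * k : ℕ) : ℝ))^(-r) := by
      push_cast
      rw [Real.mul_rpow (by norm_num) hk0.le]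
    rw [e1]
    exact mul_le_mul_of_nonneg_left (Real.rpow_le_rpow hlog.le hlog2 he) (by positivity)

theorem adm_dbl (ψ : ℕ → ℝ) (h : SmSm.Adm ψ) :
    ∃ c : ℝ, 0 < c ∧ ∀ k : ℕ, 2 ≤ k → 0 < ψ k ∧ c * ψ k ≤ ψ (2 * k) := by
  obtain ⟨hpos, ρ, c, hρ, hc, hmul, hdbl⟩ := h
  refine ⟨c⁻¹, by positivity, fun k hk => ⟨hpos k hk, ?_⟩⟩
  have h1 := hdbl k (2 * k) hk (by omega) le_rfl
  rw [inv_mul_le_iff₀ hc]
  exact h1

/-- Orders of the entropy numbers of `W^r_p` and `H^r_p` in `L_∞` for all `d ≥ 3`, `1 ≤ p ≤ ∞` and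
`r > 1/p`. -/
theorem result (𝕜 : Type) [RCLike 𝕜] (d : ℕ) (hd : 3 ≤ d) (p : ℝ≥0∞) (hp : 1 ≤ p) (r : ℝ)
    (hr : 1/p < ENNReal.ofReal r) :
    (∃ c C : ℝ, 0 < c ∧ 0 < C ∧ ∀ n : ℕ, 2 ≤ n →
      ENNReal.ofReal (c * ordW d r p n) ≤ ent n (W 𝕜 d r p) ∧
      ent n (W 𝕜 d r p) ≤ ENNReal.ofReal (C * ordW d r p n)) ∧
    (∃ c C : ℝ, 0 < c ∧ 0 < C ∧ ∀ n : ℕ, 2 ≤ n →
      ENNReal.ofReal (c * ordH d r n) ≤ ent n (H 𝕜 d r p) ∧
      ent n (H 𝕜 d r p) ≤ ENNReal.ofReal (C * ordH d r n)) := by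
  have hr0 : 0 < r := by
    by_contra h
    rw [ENNReal.ofReal_of_nonpos (not_lt.1 h)] at hr
    exact absurd hr (by simp)
  have h12 : ENNReal.ofReal (1/2) = 1/2 := by
    rw [ENNReal.ofReal_div_of_pos (by norm_num)]; simp
  have hp2 : r ≤ 1/2 → 2 < p := by
    intro h
    have h1 : ENNReal.ofReal r ≤ 1/2 := by
      rw [← h12]
      exact ENNReal.ofReal_le_ofReal h
    have h2 := lt_of_lt_of_le hr h1
    rw [one_div, one_div, ENNReal.inv_lt_inv] at h2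
    exact h2
  simp only [ent_eq]
  have hHK0 := SmSm.all_hk0 𝕜 d r p
  have hHeq : (H 𝕜 d r p) = SmSm.HK 𝕜 d r p := rfl
  have hWeq : (W 𝕜 d r p) = HypVol.ML 𝕜 d r p (fun _ => r) := rfl
  rw [hHeq, hWeq]
  rcases lt_trichotomy r (1/2) with h | h | h
  · have e1 : ∀ n, ordW d r p n = SmSm.psiA d r n := by
      intro n; simp only [ordW, if_pos h, SmSm.psiA]
    have e2 : ∀ n, ordH d r n = SmSm.psiHA d r n := by
      intro n; simp only [ordH, if_pos h, SmSm.psiHA]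
    simp only [e1, e2]
    refine ⟨(SmSm.all_finalw 𝕜 d hd (fun _ => r) p (hp2 h.le)).1 r hr hr0 h, ?_⟩
    exact hHK0 (SmSm.psiHA d r) hr0 (adm_dbl _ (SmSm.admh.1 d r (by omega) hr0 (by linarith)))
      ((SmSm.all_finalh d hd p (hp2 h.le)).1 r hr hr0 h)
  · subst h
    have e1 : ∀ n, ordW d (1/2) p n = SmSm.psiB d n := by
      intro n; simp only [ordW, if_neg (lt_irrefl (1/2:ℝ)), if_true, SmSm.psiB]
    have e2 : ∀ n, ordH d (1/2) n = SmSm.psiHB d n := by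
      intro n; simp only [ordH, if_neg (lt_irrefl (1/2:ℝ)), if_true, SmSm.psiHB]
    simp only [e1, e2]
    refine ⟨(SmSm.all_finalw 𝕜 d hd (fun _ => 1/2) p (hp2 le_rfl)).2, ?_⟩
    exact hHK0 (SmSm.psiHB d) hr0 (adm_dbl _ (SmSm.admh.2 d (by omega)))
      ((SmSm.all_finalh d hd p (hp2 le_rfl)).2)
  · have hn : ¬ r < 1/2 := not_lt.2 h.le
    have hne : ¬ r = 1/2 := ne_of_gt h
    have e2 : ∀ n, ordH d r n = SmSm.psiP d r n := by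
      intro n; simp only [ordH, if_neg hn, if_neg hne, SmSm.psiP]
    simp only [e2]
    refine ⟨?_, hHK0 (SmSm.psiP d r) hr0 (psiP_dbl d hd r hr0) (SmSm.all_hfin d hd p r hp hr h)⟩
    by_cases h1 : p = 1
    · subst h1
      have hr1 : 1 < r := by
        have h3 : ENNReal.ofReal 1 < ENNReal.ofReal r := by simpa using hr
        exact (ENNReal.ofReal_lt_ofReal_iff hr0).1 h3
      have e1 : ∀ n, ordW d r 1 n = HypVol.RkS d r 2 n := by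
        intro n
        simp only [ordW, if_neg hn, if_neg hne, if_true, HypVol.RkS]
        norm_num
      simp only [e1]
      obtain ⟨c, hc, hl⟩ := SmSmW.case_1inf_lower 𝕜 d hd r hr1
      obtain ⟨C, hC, hu⟩ := SmSmW.case_1inf_upper 𝕜 d hd (fun _ => r) r hr1
      exact ⟨c, C, hc, hC, fun n hn2 => ⟨hl n hn2, hu n hn2⟩⟩
    · have hp1 : 1 < p := lt_of_le_of_ne hp (Ne.symm h1)
      have e1 : ∀ n, ordW d r p n = HypVol.Rk d r n := by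
        intro n; simp only [ordW, if_neg hn, if_neg hne, if_neg h1, HypVol.Rk]
      simp only [e1]
      have hpr : (p⁻¹).toReal < r := by
        rw [one_div] at hr
        exact ENNReal.toReal_lt_of_lt_ofReal hr
      obtain ⟨⟨c, hc, hl⟩, ⟨C, hC, hu⟩⟩ :=
        SmSmW.case_pinf 𝕜 d hd (fun _ => r) r p hp1 (max_lt h hpr)
      exact ⟨c, C, hc, hC, fun n hn2 => ⟨hl n hn2, hu n hn2⟩⟩

end Pool.Agent.Results.MP_7fc85e_an.FullOrder
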